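import Pool.Agent.Lib.MP_1a91b9_nuX.TM.Cov
import Pool.Agent.Lib.MP_1a91b9_nuX.PL.NmA
import Pool.Agent.Lib.MP_1a91b9_nuT.CT.Lb

/-!
# Tamagawa numbers of curves with integral `j`-invariant

`tam_cop`: let `a`, `b` be integers with `4 a³ + 27 b² ≠ 0` and integral invariant
`6912 a³ / (4 a³ + 27 b²)`. For every curve over a number field which is isomorphic to
`y² = x³ + a x + b` and every prime `ℓ` which does not divide `6 (4 a³ + 27 b²)` all the Tamagawa
numbers are prime to `ℓ`.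
-/

set_option autoImplicit false

namespace Pool.Agent.Lib.MP_1a91b9_nuX.TM

variable [Pool.Agent.Lib.MP_1a91b9_nuT.CD]

open NumberField IsDedekindDomain WeierstrassCurve WithZero Pool.Agent.Lib.MP_1a91b9_nuX.GM
open Pool.Agent.Lib.MP_1a91b9_nuT.CT (ns)
open Pool.Agent.Lib.MP_1a91b9_nuT.S9 (tam minModel minChange normFactor)
open scoped Classical

variable {N : Type*} [Field N] [NumberField N]

theorem sw_Δ {R : Type*} [CommRing R] (a b : R) :
    (sw a b).Δ = -(16 * (4 * a ^ 3 + 27 * b ^ 2)) := by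
  simp only [sw, WeierstrassCurve.Δ, WeierstrassCurve.b₂, WeierstrassCurve.b₄,
    WeierstrassCurve.b₆, WeierstrassCurve.b₈]
  ring

theorem sw_c₄ {R : Type*} [CommRing R] (a b : R) : (sw a b).c₄ = -(48 * a) := by
  simp only [sw, WeierstrassCurve.c₄, WeierstrassCurve.b₂, WeierstrassCurve.b₄]
  ring

theorem sw_map {R S : Type*} [CommRing R] [CommRing S] (f : R →+* S) (a b : R) :
    (sw a b).map f = sw (f a) (f b) := by
  ext
  · exact map_zero f
  · exact map_zero f
  · exact map_zero f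
  · rfl
  · rfl

/-- the integral model of a good model -/
theorem exists_int_model {v : HeightOneSpectrum (𝓞 N)} {W : WeierstrassCurve (v.adicCompletion N)}
    (h : GoodW (Valued.v : Valuation (v.adicCompletion N) ℤᵐ⁰) W) :
    ∃ I : WeierstrassCurve (v.adicCompletionIntegers N), W = I.baseChange (v.adicCompletion N) :=
  ⟨⟨⟨_, h.a1⟩, ⟨_, h.a2⟩, ⟨_, h.a3⟩, ⟨_, h.a4⟩, ⟨_, h.a6⟩⟩, rfl⟩

/-- at a place of good reduction all the points are nonsingular -/
theorem good_ns (v : HeightOneSpectrum (𝓞 N)) {W₀ : WeierstrassCurve (v.adicCompletion N)}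
    (h : ∃ C₀ : VariableChange (v.adicCompletion N),
      GoodW (Valued.v : Valuation (v.adicCompletion N) ℤᵐ⁰) (C₀ • W₀))
    (C : VariableChange (v.adicCompletion N))
    (hm : IsMinimal (v.adicCompletionIntegers N) (C • W₀)) : ns (C • W₀) = ⊤ := by
  obtain ⟨C₀, hC₀⟩ := h
  obtain ⟨I, hI⟩ := exists_int_model hC₀
  have e : (C * C₀⁻¹) • (C₀ • W₀) = C • W₀ := by rw [mul_smul, inv_smul_smul]
  obtain ⟨h1, -⟩ := Pool.Agent.Lib.MP_1a91b9_nuT.CT.unit_min (C₀ • W₀) I hI hC₀.disc (C * C₀⁻¹)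
    (by rw [e]; exact hm)
  rw [e] at h1
  obtain ⟨J, hJ⟩ := Pool.Agent.Lib.MP_1a91b9_nuT.CT.min_int _ hm
  exact Pool.Agent.Lib.MP_1a91b9_nuT.CT.ns_unit _ J hJ h1

/-- the points with large abscissa are nonsingular -/
theorem big_ns (v : HeightOneSpectrum (𝓞 N)) (W₀ : WeierstrassCurve (v.adicCompletion N))
    (C : VariableChange (v.adicCompletion N)) :
    ∃ (e : W₀.toAffine.Point ≃+ (C • W₀).toAffine.Point) (M : ℤᵐ⁰), ∀ P : W₀.toAffine.Point,
      Bg (Valued.v : Valuation (v.adicCompletion N) ℤᵐ⁰) M P → e P ∈ ns (C • W₀) := by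
  obtain ⟨e, he⟩ := exists_chg W₀ C
  obtain ⟨M, hM⟩ : ∃ M, M = max (Valued.v C.r)
    (Valued.v (C.u : v.adicCompletion N) ^ 2) := ⟨_, rfl⟩
  refine ⟨e, M, fun P hP => ?_⟩
  by_cases hP0 : P = 0
  · rw [hP0, map_zero]
    exact zero_mem _
  have hb := hP.resolve_left hP0
  obtain ⟨hx, -⟩ := he P hP0
  have heP : e P ≠ 0 := fun h => hP0 (e.injective (by rw [h, map_zero]))
  apply AddSubgroup.subset_closure
  right
  obtain ⟨Q, hQ⟩ : ∃ Q, Q = e P := ⟨_, rfl⟩
  rw [← hQ] at heP hx ⊢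
  rcases Q with _ | ⟨x, y, h⟩
  · exact absurd rfl heP
  refine ⟨x, y, h, rfl, Or.inl ?_⟩
  have hx' : px P = (C.u : v.adicCompletion N) ^ 2 * x + C.r := hx
  have h5 : Valued.v ((C.u : v.adicCompletion N) ^ 2 * x) = Valued.v (px P) := by
    rw [show (C.u : v.adicCompletion N) ^ 2 * x = px P - C.r by rw [hx']; ring]
    refine Valuation.map_sub_eq_of_lt_left _ (lt_of_le_of_lt ?_ hb)
    rw [hM]
    exact le_max_left _ _
  have h6 : Valued.v (C.u : v.adicCompletion N) ^ 2 <
      Valued.v (C.u : v.adicCompletion N) ^ 2 * Valued.v x := by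
    rw [← map_pow, ← map_mul, h5, map_pow]
    refine lt_of_le_of_lt ?_ hb
    rw [hM]
    exact le_max_right _ _
  by_contra hc
  rw [not_lt] at hc
  exact (mul_le_of_le_one_right' hc).not_gt h6

/-- a subgroup which contains the points with large abscissa has finite index -/
theorem fin_index {k : Type*} [Field k] {v : Valuation k ℤᵐ⁰} {W : WeierstrassCurve k}
    (hcov : ∀ M : ℤᵐ⁰, ∃ T : Finset W.toAffine.Point,
      ∀ P : W.toAffine.Point, ∃ t ∈ T, Bg v M (P - t)) (H : AddSubgroup W.toAffine.Point)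
    (M₀ : ℤᵐ⁰) (hH : ∀ P : W.toAffine.Point, Bg v M₀ P → P ∈ H) : H.FiniteIndex := by
  obtain ⟨T, hT⟩ := hcov M₀
  have hfin : Finite (W.toAffine.Point ⧸ H) := by
    refine Finite.of_surjective (fun t : T => (QuotientAddGroup.mk (t : W.toAffine.Point) :
      W.toAffine.Point ⧸ H)) ?_
    intro q
    obtain ⟨P, rfl⟩ := QuotientAddGroup.mk_surjective q
    obtain ⟨t, ht1, ht2⟩ := hT P
    refine ⟨⟨t, ht1⟩, ?_⟩
    rw [QuotientAddGroup.eq]
    rw [neg_add_eq_sub]
    exact hH _ ht2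
  exact AddSubgroup.finiteIndex_of_finite_quotient

/-- the residue characteristic -/
theorem exists_char (v : HeightOneSpectrum (𝓞 N)) :
    ∃ p : ℕ, p.Prime ∧ Valued.v (p : v.adicCompletion N) < (1 : ℤᵐ⁰) := by
  have hq : Ideal.absNorm v.asIdeal ≠ 0 := by
    rw [Ne, Ideal.absNorm_eq_zero_iff]
    exact v.ne_bot
  have hq1 : Ideal.absNorm v.asIdeal ≠ 1 := by
    rw [Ne, Ideal.absNorm_eq_one_iff]
    exact v.isPrime.ne_top
  have hval : ∀ n : ℕ, Valued.v (n : v.adicCompletion N) = v.valuation N (n : N) := by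
    intro n
    rw [← HeightOneSpectrum.valuedAdicCompletion_eq_valuation' v (n : N)]
    congr 1
    exact (map_natCast (algebraMap N (v.adicCompletion N)) n).symm
  have hmem : ∀ n : ℕ, Valued.v (n : v.adicCompletion N) < (1 : ℤᵐ⁰) ↔
      (n : 𝓞 N) ∈ v.asIdeal := by
    intro n
    have e : algebraMap (𝓞 N) N (n : 𝓞 N) = (n : N) := map_natCast (algebraMap (𝓞 N) N) n
    rw [hval, ← e]
    exact v.valuation_lt_one_iff_mem (K := N) (n : 𝓞 N)
  -- the norm is in the ideal
  have hN : ((Ideal.absNorm v.asIdeal : ℕ) : 𝓞 N) ∈ v.asIdeal := Ideal.absNorm_mem _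
  have key : ∀ n : ℕ, n ≠ 0 → (n : 𝓞 N) ∈ v.asIdeal → ∃ p : ℕ, p.Prime ∧ (p : 𝓞 N) ∈ v.asIdeal := by
    intro n
    induction n using Nat.strong_induction_on with
    | _ n ih =>
      intro hn h
      have hn1 : n ≠ 1 := by
        rintro rfl
        rw [Nat.cast_one] at h
        exact v.isPrime.ne_top ((Ideal.eq_top_iff_one _).2 h)
      obtain ⟨p, hp, m, rfl⟩ := Nat.exists_prime_and_dvd hn1
      rw [Nat.cast_mul] at h
      rcases v.isPrime.mem_or_mem h with h1 | h1
      · exact ⟨p, hp, h1⟩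
      · have hm0 : m ≠ 0 := by
          rintro rfl
          exact hn (mul_zero _)
        refine ih m ?_ hm0 h1
        have := hp.one_lt
        have : 0 < m := Nat.pos_of_ne_zero hm0
        nlinarith
  obtain ⟨p, hp, h⟩ := key _ hq hN
  exact ⟨p, hp, (hmem p).2 h⟩

/-- **The Tamagawa numbers.** -/
theorem tam_cop {W : WeierstrassCurve N} {D : VariableChange N} {a b : ℤ}
    (hab : 4 * a ^ 3 + 27 * b ^ 2 ≠ 0) (hj : 4 * a ^ 3 + 27 * b ^ 2 ∣ 6912 * a ^ 3)
    (hD : D • W = sw (a : N) (b : N)) {ℓ : ℕ} (hℓ : ℓ.Prime)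
    (hg : ¬ (ℓ : ℤ) ∣ 6 * (4 * a ^ 3 + 27 * b ^ 2)) (v : HeightOneSpectrum (𝓞 N)) :
    (tam W v).Coprime ℓ := by
  obtain ⟨C, -, hC⟩ := PL.minModel_of hD v
  have hm := Pool.Agent.Lib.MP_1a91b9_nuT.S9.minModel_isMinimal W v
  rw [tam, Pool.Agent.Lib.MP_1a91b9_nuT.CT.nonsing_eq]
  have e0 : (sw (a : N) (b : N)).baseChange (v.adicCompletion N) =
      sw (a : v.adicCompletion N) (b : v.adicCompletion N) := by
    rw [WeierstrassCurve.baseChange, sw_map, map_intCast, map_intCast]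
  rw [hC, e0] at hm ⊢
  obtain ⟨V, hVd⟩ : ∃ V : Valuation (v.adicCompletion N) ℤᵐ⁰, V = Valued.v := ⟨_, rfl⟩
  have h5 : 5 ≤ ℓ := by
    have h2 : ℓ ≠ 2 := by
      rintro rfl
      exact hg ⟨3 * (4 * a ^ 3 + 27 * b ^ 2), by push_cast; ring⟩
    have h3 : ℓ ≠ 3 := by
      rintro rfl
      exact hg ⟨2 * (4 * a ^ 3 + 27 * b ^ 2), by push_cast; ring⟩
    have h4 : ℓ ≠ 4 := by
      rintro rfl
      exact absurd hℓ (by decide)
    have := hℓ.two_le
    omega
  -- the discriminant
  have hinj : ∀ m : ℤ, (m : v.adicCompletion N) = 0 → m = 0 := by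
    intro m h
    have h1 : algebraMap N (v.adicCompletion N) (m : N) = 0 := by rw [map_intCast]; exact h
    have h2 : (m : N) = 0 := (map_eq_zero _).1 h1
    exact_mod_cast h2
  have hd : 4 * (a : v.adicCompletion N) ^ 3 + 27 * (b : v.adicCompletion N) ^ 2 ≠ 0 := by
    intro h
    refine hab (hinj _ ?_)
    push_cast
    exact h
  by_cases hgood : ∃ C₀ : VariableChange (v.adicCompletion N),
      GoodW (Valued.v : Valuation (v.adicCompletion N) ℤᵐ⁰)
        (C₀ • sw (a : v.adicCompletion N) (b : v.adicCompletion N))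
  · rw [good_ns v hgood C hm, AddSubgroup.index_top]
    exact Nat.coprime_one_left ℓ
  have hint : ∀ m : ℤ, V (m : v.adicCompletion N) ≤ 1 := by
    intro m
    rcases Int.eq_nat_or_neg m with ⟨n, rfl | rfl⟩
    · rw [Int.cast_natCast]; exact v_nat_le n
    · rw [Int.cast_neg, Int.cast_natCast, Valuation.map_neg]; exact v_nat_le n
  have h20 : (2 : v.adicCompletion N) ≠ 0 := fun h => absurd (hinj 2 (by exact_mod_cast h))
    (by norm_num)
  have h30 : (3 : v.adicCompletion N) ≠ 0 := fun h => absurd (hinj 3 (by exact_mod_cast h))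
    (by norm_num)
  -- `ℓ` is a unit at `v`
  have hvℓ : V (ℓ : v.adicCompletion N) = 1 := by
    refine le_antisymm (v_nat_le ℓ) (not_lt.1 fun hlt => hgood ?_)
    have hcop : IsCoprime (ℓ : ℤ) (6 * (4 * a ^ 3 + 27 * b ^ 2)) :=
      (Prime.coprime_iff_not_dvd (Nat.prime_iff_prime_int.1 hℓ)).2 hg
    obtain ⟨x, y, hxy⟩ := hcop
    have h1 : (x : v.adicCompletion N) * ℓ + y * ((6 * (4 * a ^ 3 + 27 * b ^ 2) : ℤ) :
        v.adicCompletion N) = 1 := by
      exact_mod_cast congrArg (Int.cast : ℤ → v.adicCompletion N) hxy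
    have h6 : V ((6 * (4 * a ^ 3 + 27 * b ^ 2) : ℤ) : v.adicCompletion N) = 1 := by
      refine le_antisymm (hint _) (not_lt.1 fun h => ?_)
      have h2 : V ((x : v.adicCompletion N) * ℓ + y * ((6 * (4 * a ^ 3 + 27 * b ^ 2) : ℤ) :
          v.adicCompletion N)) < 1 := by
        refine V.map_add_lt ?_ ?_
        · rw [map_mul]
          exact (mul_le_of_le_one_left' (hint x)).trans_lt hlt
        · rw [map_mul]
          exact (mul_le_of_le_one_left' (hint y)).trans_lt h
      rw [h1, map_one] at h2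
      exact lt_irrefl _ h2
    have hΔ1 : V ((16 * (4 * a ^ 3 + 27 * b ^ 2) : ℤ) : v.adicCompletion N) = 1 := by
      refine le_antisymm (hint _) ?_
      have e : ((16 * (4 * a ^ 3 + 27 * b ^ 2) : ℤ) : v.adicCompletion N) *
          ((81 * (4 * a ^ 3 + 27 * b ^ 2) ^ 3 : ℤ) : v.adicCompletion N) =
          ((6 * (4 * a ^ 3 + 27 * b ^ 2) : ℤ) : v.adicCompletion N) ^ 4 := by
        push_cast
        ring
      calc (1 : ℤᵐ⁰) = V (((6 * (4 * a ^ 3 + 27 * b ^ 2) : ℤ) : v.adicCompletion N) ^ 4) := by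
            rw [map_pow, h6, one_pow]
        _ = V ((16 * (4 * a ^ 3 + 27 * b ^ 2) : ℤ) : v.adicCompletion N) *
            V ((81 * (4 * a ^ 3 + 27 * b ^ 2) ^ 3 : ℤ) : v.adicCompletion N) := by
            rw [← e, map_mul]
        _ ≤ V ((16 * (4 * a ^ 3 + 27 * b ^ 2) : ℤ) : v.adicCompletion N) * 1 :=
            mul_le_mul' le_rfl (hint _)
        _ = _ := mul_one _
    refine ⟨1, ?_⟩
    rw [one_smul, ← hVd]
    refine ⟨⟨?_, ?_, ?_, hint a, hint b⟩, ?_⟩
    · rw [sw_a1, map_zero]; exact zero_le_one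
    · rw [sw_a2, map_zero]; exact zero_le_one
    · rw [sw_a3, map_zero]; exact zero_le_one
    · rw [sw_Δ, Valuation.map_neg, ← hΔ1]
      push_cast
      rfl
  -- potential good reduction
  obtain ⟨B, hB⟩ := exists_val_ext (F' := AlgebraicClosure (v.adicCompletion N)) V
  have hmapΔ : ((sw (a : v.adicCompletion N) (b : v.adicCompletion N)).map
      (algebraMap (v.adicCompletion N) (AlgebraicClosure (v.adicCompletion N)))).Δ =
      algebraMap _ _ (sw (a : v.adicCompletion N) (b : v.adicCompletion N)).Δ :=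
    WeierstrassCurve.map_Δ _ _
  have hΔ0 : (sw (a : v.adicCompletion N) (b : v.adicCompletion N)).Δ ≠ 0 := by
    rw [sw_Δ, neg_ne_zero]
    refine mul_ne_zero ?_ hd
    have e : (16 : v.adicCompletion N) = 2 ^ 4 := by norm_num
    rw [e]
    exact pow_ne_zero 4 h20
  have hjV : B.valuation (((sw (a : v.adicCompletion N) (b : v.adicCompletion N)).map
      (algebraMap (v.adicCompletion N) (AlgebraicClosure (v.adicCompletion N)))).c₄ ^ 3) ≤
      B.valuation ((sw (a : v.adicCompletion N) (b : v.adicCompletion N)).map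
      (algebraMap (v.adicCompletion N) (AlgebraicClosure (v.adicCompletion N)))).Δ := by
    obtain ⟨m, hm'⟩ := hj
    have e1 : (sw (a : v.adicCompletion N) (b : v.adicCompletion N)).c₄ ^ 3 =
        (sw (a : v.adicCompletion N) (b : v.adicCompletion N)).Δ * (m : v.adicCompletion N) := by
      rw [sw_c₄, sw_Δ]
      have h1 := congrArg (Int.cast : ℤ → v.adicCompletion N) hm'
      push_cast at h1
      linear_combination (-16) * h1
    rw [WeierstrassCurve.map_c₄, ← map_pow, e1, hmapΔ, map_mul, map_mul]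
    exact mul_le_of_le_one_right' ((hB _).2 (hint m))
  have a20 : (2 : AlgebraicClosure (v.adicCompletion N)) ≠ 0 := by
    have h := (map_ne_zero (algebraMap (v.adicCompletion N)
      (AlgebraicClosure (v.adicCompletion N)))).2 h20
    rwa [map_ofNat] at h
  have a30 : (3 : AlgebraicClosure (v.adicCompletion N)) ≠ 0 := by
    have h := (map_ne_zero (algebraMap (v.adicCompletion N)
      (AlgebraicClosure (v.adicCompletion N)))).2 h30
    rwa [map_ofNat] at h
  obtain ⟨C₁, hC₁⟩ := exists_good (v := B.valuation) a20 a30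
    (W := (sw (a : v.adicCompletion N) (b : v.adicCompletion N)).map
      (algebraMap (v.adicCompletion N) (AlgebraicClosure (v.adicCompletion N))))
    (by rw [hmapΔ]; exact (map_ne_zero _).2 hΔ0) hjV
  obtain ⟨e, M₀, hM₀⟩ := big_ns v (sw (a : v.adicCompletion N) (b : v.adicCompletion N)) C
  obtain ⟨p, hp, hvp⟩ := exists_char v
  have hcov := cover v hd
  have hidx : ((ns (C • sw (a : v.adicCompletion N) (b : v.adicCompletion N))).comap
      e.toAddMonoidHom).index = (ns (C • sw (a : v.adicCompletion N)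
        (b : v.adicCompletion N))).index :=
    AddSubgroup.index_comap_of_surjective _ e.surjective
  rw [← hVd] at hcov hvp hM₀ hgood
  have hfi : ((ns (C • sw (a : v.adicCompletion N) (b : v.adicCompletion N))).comap
      e.toAddMonoidHom).FiniteIndex := fin_index hcov _ M₀ hM₀
  rw [← hidx]
  refine index_cop (F := AlgebraicClosure (v.adicCompletion N)) (V := B.valuation) ?_ hB hcov
    (Algebra.IsAlgebraic.isAlgebraic _) hC₁ hgood _ M₀ hM₀ hℓ h5 hp hvp hvℓ
  intro γ
  rw [hVd]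
  exact v.valuedAdicCompletion_surjective N γ

end Pool.Agent.Lib.MP_1a91b9_nuX.TM
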