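import Pool.Agent.Lib.MP_1a91b9_nuX.TM.Ker

/-!
# The points with large abscissa and the index of the subgroups which contain them

`index_cop`: if `W` has a good model over the algebraically closed field `F` but not over `k`, then
the index of a subgroup of the group of points over `k` which contains the points with large abscissa
is prime to `ℓ ≥ 5`, `ℓ` different from the residue characteristic.
-/

set_option autoImplicit false

namespace Pool.Agent.Lib.MP_1a91b9_nuX.TM

open WeierstrassCurve Pool.Agent.Lib.MP_1a91b9_nuX.GM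

noncomputable section

section
variable {k : Type*} [Field k] [DecidableEq k] {Γ : Type*} [LinearOrderedCommGroupWithZero Γ]
  (v : Valuation k Γ) {W : WeierstrassCurve k}

/-- the point at infinity and the points with large abscissa -/
def Bg (M : Γ) (P : W.toAffine.Point) : Prop := P = 0 ∨ M < v (px P)

variable {v}

omit [DecidableEq k] in
theorem Bg.mono {M M' : Γ} (h : M ≤ M') {P : W.toAffine.Point} (hP : Bg v M' P) : Bg v M P :=
  hP.imp_right fun h1 => lt_of_le_of_lt h h1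

/-- a scaled integral model -/
theorem exists_scale (hs : Function.Surjective v) (W : WeierstrassCurve k) (M : Γ) :
    ∃ (C : VariableChange k) (M' : Γ), M ≤ M' ∧ IntW v (C • W) ∧
      ∃ e : W.toAffine.Point ≃+ (C • W).toAffine.Point, ∀ P, Kr v (e P) ↔ Bg v M' P := by
  obtain ⟨R, hR⟩ : ∃ R : Γ, R = max 1 (max M (max (v W.a₁) (max (v W.a₂) (max (v W.a₃)
    (max (v W.a₄) (v W.a₆)))))) := ⟨_, rfl⟩
  have hR1 : 1 ≤ R := hR ▸ le_max_left _ _
  have hRM : M ≤ R := by rw [hR]; simp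
  have h1 : v W.a₁ ≤ R := by rw [hR]; simp
  have h2 : v W.a₂ ≤ R := by rw [hR]; simp
  have h3 : v W.a₃ ≤ R := by rw [hR]; simp
  have h4 : v W.a₄ ≤ R := by rw [hR]; simp
  have h6 : v W.a₆ ≤ R := by rw [hR]; simp
  have hR0 : R ≠ 0 := (zero_lt_one.trans_le hR1).ne'
  obtain ⟨a, ha⟩ := hs R⁻¹
  have ha0 : a ≠ 0 := by
    rintro rfl
    rw [map_zero] at ha
    exact inv_ne_zero hR0 ha.symm
  have ha1 : v a ≤ 1 := by
    rw [ha]
    exact inv_le_one_of_one_le₀ hR1
  have key : ∀ (c : k) (n : ℕ), v c ≤ R → v (a ^ (n + 1) * c) ≤ 1 := by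
    intro c n hc
    rw [map_mul, map_pow, pow_succ, mul_assoc]
    refine mul_le_one' (pow_le_one' ha1 n) ?_
    rw [ha]
    calc R⁻¹ * v c ≤ R⁻¹ * R := mul_le_mul' le_rfl hc
      _ = 1 := inv_mul_cancel₀ hR0
  obtain ⟨C, hC⟩ : ∃ C : VariableChange k, C = ⟨(Units.mk0 a ha0)⁻¹, 0, 0, 0⟩ := ⟨_, rfl⟩
  have hu : ((C.u⁻¹ : kˣ) : k) = a := by rw [hC]; simp
  have hu' : (C.u : k) = a⁻¹ := by rw [hC]; simp
  have hr : C.r = 0 := by rw [hC]
  have hs' : C.s = 0 := by rw [hC]
  have ht : C.t = 0 := by rw [hC]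
  obtain ⟨e, he⟩ := exists_chg W C
  refine ⟨C, R ^ 2, ?_, ⟨?_, ?_, ?_, ?_, ?_⟩, e, fun P => ?_⟩
  · refine hRM.trans ?_
    rw [sq]
    exact le_mul_of_one_le_left' hR1
  · rw [WeierstrassCurve.variableChange_a₁, hu, hs']
    have := key W.a₁ 0 h1
    simpa using this
  · rw [WeierstrassCurve.variableChange_a₂, hu, hs', hr]
    have := key W.a₂ 1 h2
    simpa using this
  · rw [WeierstrassCurve.variableChange_a₃, hu, hr, ht]
    have := key W.a₃ 2 h3
    simpa using this
  · rw [WeierstrassCurve.variableChange_a₄, hu, hs', hr, ht]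
    have := key W.a₄ 3 h4
    simpa using this
  · rw [WeierstrassCurve.variableChange_a₆, hu, hr, ht]
    have := key W.a₆ 5 h6
    simpa using this
  · unfold Kr Bg
    by_cases hP : P = 0
    · subst hP
      rw [map_zero]
      exact ⟨fun _ => Or.inl rfl, fun _ => Or.inl rfl⟩
    · have heP : e P ≠ 0 := fun h => hP (e.injective (by rw [h, map_zero]))
      obtain ⟨hx, -⟩ := he P hP
      rw [hr, add_zero, hu'] at hx
      rw [hx, map_mul, map_pow, map_inv₀, ha, inv_inv]
      constructor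
      · rintro (h | h)
        · exact absurd h heP
        · right
          calc R ^ 2 = R ^ 2 * 1 := (mul_one _).symm
            _ < R ^ 2 * v (px (e P)) := mul_lt_mul_of_pos_left h (pow_pos (zero_lt_iff.2 hR0) 2)
      · rintro (h | h)
        · exact absurd h hP
        · right
          have h2 : 0 < R ^ 2 := pow_pos (zero_lt_iff.2 hR0) 2
          by_contra hc
          rw [not_lt] at hc
          exact absurd h (not_lt.2 (mul_le_of_le_one_right' hc))

/-- the points with large abscissa form a subgroup -/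
theorem bg_group (hs : Function.Surjective v) (W : WeierstrassCurve k) (M : Γ) :
    ∃ M' : Γ, M ≤ M' ∧ ∀ P Q : W.toAffine.Point, Bg v M' P → Bg v M' Q → Bg v M' (P - Q) := by
  obtain ⟨C, M', hM, hI, e, he⟩ := exists_scale hs W M
  refine ⟨M', hM, fun P Q hP hQ => ?_⟩
  rw [← he] at hP hQ ⊢
  rw [map_sub, sub_eq_add_neg]
  exact kr_add_kr hI hP (kr_neg.2 hQ)

/-- some multiple of every point has a large abscissa -/
theorem exists_mul (hs : Function.Surjective v) (hcov : ∀ M : Γ, ∃ T : Finset W.toAffine.Point,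
    ∀ P : W.toAffine.Point, ∃ t ∈ T, Bg v M (P - t)) (M : Γ) (P : W.toAffine.Point) :
    ∃ i : ℕ, 0 < i ∧ Bg v M (i • P) := by
  obtain ⟨M', hM, hsub⟩ := bg_group hs W M
  obtain ⟨T, hT⟩ := hcov M'
  choose t ht1 ht2 using fun n : ℕ => hT (n • P)
  obtain ⟨n, m, hne, heq⟩ : ∃ n m : ℕ, n ≠ m ∧ t n = t m := by
    by_contra hcon
    push Not at hcon
    have hinj : Function.Injective t := fun n m h => by
      by_contra hnm
      exact hcon n m hnm h
    exact not_injective_infinite_finite (fun n => (⟨t n, ht1 n⟩ : T))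
      (fun n m h => hinj (congrArg Subtype.val h))
  have key : ∀ n m : ℕ, n < m → t n = t m → ∃ i : ℕ, 0 < i ∧ Bg v M (i • P) := by
    intro n m hlt h
    refine ⟨m - n, Nat.sub_pos_of_lt hlt, Bg.mono hM ?_⟩
    have h1 := hsub _ _ (ht2 m) (ht2 n)
    have e : m • P - t m - (n • P - t n) = (m - n) • P := by
      rw [h, sub_nsmul P hlt.le]
      abel
    rwa [e] at h1
  rcases lt_or_gt_of_ne hne with h | h
  · exact key n m h heq
  · exact key m n h heq.symm

end

section
variable {k F : Type*} [Field k] [Field F] [Algebra k F]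
  {Γ Γ' : Type*} [LinearOrderedCommGroupWithZero Γ] [LinearOrderedCommGroupWithZero Γ']
  {v : Valuation k Γ} {V : Valuation F Γ'}

/-- the two valuations define the same order -/
theorem val_lt_iff (hV : ∀ x : k, V (algebraMap k F x) ≤ 1 ↔ v x ≤ 1) (x y : k) :
    V (algebraMap k F x) < V (algebraMap k F y) ↔ v x < v y := by
  rcases eq_or_ne y 0 with rfl | hy
  · rw [map_zero, map_zero, map_zero]
    exact ⟨fun h => absurd h not_lt_zero, fun h => absurd h not_lt_zero⟩
  · have h1 := val_ext_lt v V hV (x / y)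
    have a1 : 0 < v y := zero_lt_iff.2 ((Valuation.ne_zero_iff v).2 hy)
    have a2 : 0 < V (algebraMap k F y) :=
      zero_lt_iff.2 ((Valuation.ne_zero_iff V).2 (by rwa [Ne, map_eq_zero]))
    rwa [map_div₀, map_div₀, map_div₀, div_lt_one₀ a2, div_lt_one₀ a1] at h1

/-- an algebraic element is bounded by an element of the base field -/
theorem exists_bound (V : Valuation F Γ') {r : F} (hr : IsAlgebraic k r) :
    ∃ c : k, V r ≤ V (algebraMap k F c) := by
  by_contra hcon
  push Not at hcon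
  have hint : IsIntegral k r := hr.isIntegral
  obtain ⟨p, hp⟩ : ∃ p, p = minpoly k r := ⟨_, rfl⟩
  have hmon : p.Monic := hp ▸ minpoly.monic hint
  have hroot : Polynomial.aeval r p = 0 := hp ▸ minpoly.aeval k r
  have hr1 : 1 < V r := by
    have := hcon 1
    rwa [map_one, map_one] at this
  have hr0 : 0 < V r := zero_lt_one.trans hr1
  have hn : p.natDegree ≠ 0 := by
    intro h0
    have h1 : p = 1 := hmon.natDegree_eq_zero.1 h0
    rw [h1, map_one] at hroot
    exact one_ne_zero hroot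
  have e := hroot
  rw [Polynomial.aeval_eq_sum_range, Finset.sum_range_succ, hmon.coeff_natDegree, one_smul] at e
  have e2 : r ^ p.natDegree = -∑ i ∈ Finset.range p.natDegree, p.coeff i • r ^ i := by
    linear_combination e
  have h1 : V (r ^ p.natDegree) < V r ^ p.natDegree := by
    rw [e2, Valuation.map_neg]
    refine Valuation.map_sum_lt V (pow_pos hr0 _).ne' fun i hi => ?_
    rw [Algebra.smul_def, map_mul, map_pow]
    have hi' : i + 1 ≤ p.natDegree := Finset.mem_range.1 hi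
    calc V (algebraMap k F (p.coeff i)) * V r ^ i < V r * V r ^ i :=
          mul_lt_mul_of_pos_right (hcon _) (pow_pos hr0 _)
      _ = V r ^ (i + 1) := by rw [pow_succ, mul_comm]
      _ ≤ V r ^ p.natDegree := pow_le_pow_right₀ hr1.le hi'
  rw [map_pow] at h1
  exact lt_irrefl _ h1

end

section
variable {k F : Type*} [Field k] [Field F] [DecidableEq k] [DecidableEq F] [Algebra k F]
  [IsAlgClosed F]
  {Γ Γ' : Type*} [LinearOrderedCommGroupWithZero Γ] [LinearOrderedCommGroupWithZero Γ']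
  {v : Valuation k Γ} {V : Valuation F Γ'}

/-- **The index.** -/
theorem index_cop (hs : Function.Surjective v)
    (hV : ∀ x : k, V (algebraMap k F x) ≤ 1 ↔ v x ≤ 1) {W : WeierstrassCurve k}
    (hcov : ∀ M : Γ, ∃ T : Finset W.toAffine.Point,
      ∀ P : W.toAffine.Point, ∃ t ∈ T, Bg v M (P - t))
    {C : VariableChange F} (hr : IsAlgebraic k C.r) (hC : GoodW V (C • W.map (algebraMap k F)))
    (hng : ¬ ∃ C' : VariableChange k, GoodW v (C' • W)) (H : AddSubgroup W.toAffine.Point)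
    [H.FiniteIndex] (M₀ : Γ) (hH : ∀ P : W.toAffine.Point, Bg v M₀ P → P ∈ H) {ℓ p : ℕ}
    (hℓ : ℓ.Prime) (h5 : 5 ≤ ℓ) (hp : p.Prime) (hvp : v (p : k) < 1) (hvℓ : v (ℓ : k) = 1) :
    H.index.Coprime ℓ := by
  rw [Nat.coprime_comm, Nat.Prime.coprime_iff_not_dvd hℓ]
  intro hdvd
  have : Fact ℓ.Prime := ⟨hℓ⟩
  have : Finite (W.toAffine.Point ⧸ H) := AddSubgroup.finite_quotient_of_finiteIndex
  rw [AddSubgroup.index] at hdvd
  obtain ⟨q, hq⟩ := exists_prime_addOrderOf_dvd_card' ℓ hdvd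
  obtain ⟨g, rfl⟩ := QuotientAddGroup.mk_surjective q
  obtain ⟨φ, hφi, hφx, hφy⟩ := exists_map W F
  obtain ⟨e, he⟩ := exists_chg (W.map (algebraMap k F)) C
  -- a multiple in the kernel of reduction
  obtain ⟨m, hm0, hm3, hmK⟩ : ∃ m : ℕ, 0 < m ∧ m ≤ 3 ∧ Kr V (e (φ (m • g))) := by
    by_contra hcon
    push Not at hcon
    have h1 := hcon 1 (by norm_num) (by norm_num)
    have h2 := hcon 2 (by norm_num) (by norm_num)
    have h3 := hcon 3 (by norm_num) (by norm_num)
    rw [one_nsmul] at h1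
    rw [two_nsmul] at h2
    rw [show (3 : ℕ) = 2 + 1 from rfl, succ_nsmul, two_nsmul] at h3
    exact hng (desc_pt hV hC hφi hφx hφy he h1 h2 h3)
  obtain ⟨Q, hQ⟩ : ∃ Q, Q = m • g := ⟨_, rfl⟩
  rw [← hQ] at hmK
  -- the bound
  obtain ⟨c₁, hc₁⟩ := exists_bound (k := k) V hr
  obtain ⟨c₂, hc₂⟩ := hs M₀
  obtain ⟨c, hc1, hc2⟩ : ∃ c : k, V C.r ≤ V (algebraMap k F c) ∧ M₀ ≤ v c := by
    rcases le_total (v c₁) (v c₂) with h | h
    · refine ⟨c₂, hc₁.trans ?_, hc₂.ge⟩
      rw [← not_lt, val_lt_iff hV]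
      exact not_lt.2 h
    · exact ⟨c₁, hc₁, by rw [← hc₂]; exact h⟩
  obtain ⟨i, hi0, hi⟩ := exists_mul hs hcov (v c) Q
  obtain ⟨b, i', hi', rfl⟩ := Nat.exists_eq_pow_mul_and_not_dvd hi0.ne' p hp.ne_one
  have hvi : v (i' : k) = 1 := by
    have hcop : IsCoprime (i' : ℤ) (p : ℤ) :=
      Nat.isCoprime_iff_coprime.2 ((Nat.Prime.coprime_iff_not_dvd hp).2 hi').symm
    obtain ⟨x, y, hxy⟩ := hcop
    have h1 : (x : k) * i' + y * p = 1 := by exact_mod_cast congrArg (Int.cast : ℤ → k) hxy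
    have hint : ∀ z : ℤ, v (z : k) ≤ 1 := by
      intro z
      rcases Int.eq_nat_or_neg z with ⟨n, rfl | rfl⟩
      · rw [Int.cast_natCast]; exact v_nat_le n
      · rw [Int.cast_neg, Int.cast_natCast, Valuation.map_neg]; exact v_nat_le n
    refine le_antisymm (v_nat_le _) (not_lt.1 fun h => ?_)
    have h2 : v ((x : k) * i' + y * p) < 1 := by
      refine v.map_add_lt ?_ ?_
      · rw [map_mul]
        exact (mul_le_of_le_one_left' (hint x)).trans_lt h
      · rw [map_mul]
        exact (mul_le_of_le_one_left' (hint y)).trans_lt hvp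
    rw [h1, map_one] at h2
    exact lt_irrefl _ h2
  obtain ⟨R, hR⟩ : ∃ R, R = p ^ b • Q := ⟨_, rfl⟩
  have hRi : i' • R = (p ^ b * i') • Q := by rw [hR, smul_smul, mul_comm]
  rw [← hRi] at hi
  have hRK : Kr V (e (φ R)) := by
    rw [hR, map_nsmul, map_nsmul]
    exact kr_nsmul hC.toIntW hmK _
  have hRB : Bg v (v c) R := by
    by_cases hR0 : R = 0
    · exact Or.inl hR0
    have hB0 : e (φ R) ≠ 0 := fun h => hR0 (hφi (e.injective (by rw [h, map_zero, map_zero])))
    obtain ⟨S, hS, hSe⟩ := exists_unit_pt hC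
    have hVi : V (i' : F) = 1 := by
      have h1 := (val_ext_eq v V hV (i' : k)).2 hvi
      rwa [map_natCast] at h1
    obtain ⟨h0, h1⟩ := pt_nsmul hC.toIntW hS hSe hRK hB0 hVi
    have h2 : i' • e (φ R) = e (φ (i' • R)) := by rw [map_nsmul, map_nsmul]
    rw [h2] at h0 h1
    have hiR0 : i' • R ≠ 0 := by
      intro h
      exact h0 (by rw [h, map_zero, map_zero])
    have hK2 : Kr V (e (φ (i' • R))) := by
      rw [← h2]
      exact kr_nsmul hC.toIntW hRK _
    obtain ⟨-, -, -, hx1, -⟩ := kr_val hC.toIntW hRK hB0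
    obtain ⟨-, -, -, hx2, -⟩ := kr_val hC.toIntW hK2 h0
    rw [h1, ← hx1] at hx2
    right
    have hb := hi.resolve_left hiR0
    rw [← val_lt_iff hV, ← hφx] at hb ⊢
    have n0 : ∀ T : W.toAffine.Point, T ≠ 0 → φ T ≠ 0 := fun T hT h =>
      hT (hφi (by rw [h, map_zero]))
    obtain ⟨y1, -⟩ := he _ (n0 _ hR0)
    obtain ⟨y2, -⟩ := he _ (n0 _ hiR0)
    have h3 : V ((C.u : F) ^ 2 * px (e (φ (i' • R)))) = V (px (φ (i' • R))) := by
      have e1 : (C.u : F) ^ 2 * px (e (φ (i' • R))) = px (φ (i' • R)) - C.r := by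
        rw [y2]
        ring
      rw [e1]
      exact Valuation.map_sub_eq_of_lt_left V (lt_of_le_of_lt hc1 hb)
    have h4 : V ((C.u : F) ^ 2 * px (e (φ R))) = V (px (φ (i' • R))) := by
      rw [← h3, map_mul, map_mul, hx2]
    rw [y1, Valuation.map_add_eq_of_lt_left V (by rw [h4]; exact lt_of_le_of_lt hc1 hb), h4]
    exact hb
  have hRH : R ∈ H := hH R (Bg.mono hc2 hRB)
  have h1 : (p ^ b * m) • (QuotientAddGroup.mk g : W.toAffine.Point ⧸ H) = 0 := by
    rw [← QuotientAddGroup.mk_nsmul, QuotientAddGroup.eq_zero_iff, mul_smul, ← hQ, ← hR]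
    exact hRH
  have h2 : ℓ ∣ p ^ b * m := by
    rw [← hq]
    exact addOrderOf_dvd_of_nsmul_eq_zero h1
  rcases (hℓ.dvd_mul).1 h2 with h3 | h3
  · have h4 : ℓ = p := (Nat.prime_dvd_prime_iff_eq hℓ hp).1 (hℓ.dvd_of_dvd_pow h3)
    rw [h4] at hvℓ
    rw [hvℓ] at hvp
    exact lt_irrefl _ hvp
  · have := Nat.le_of_dvd hm0 h3
    omega

end

end

end Pool.Agent.Lib.MP_1a91b9_nuX.TM
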