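import Pool.Agent.Lib.MP_1a91b9_nuX.TM.Big
import Pool.Agent.Lib.MP_1a91b9_nuT.S9.QG

/-!
# Finitely many classes modulo the points with large abscissa, on `y² = x³ + a x + b`

`close`: two different points with bounded abscissae whose coordinates are close have a difference
with large abscissa. `cover`: the group of points over `N_v` is covered by finitely many translates of
the set of points with large abscissa.
-/

set_option autoImplicit false

namespace Pool.Agent.Lib.MP_1a91b9_nuX.TM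

open NumberField IsDedekindDomain WeierstrassCurve WithZero Pool.Agent.Lib.MP_1a91b9_nuX.GM
open scoped Classical

/-- the curve `y² = x³ + a x + b` -/
def sw {R : Type*} [CommRing R] (a b : R) : WeierstrassCurve R := ⟨0, 0, 0, a, b⟩

section
variable {R : Type*} [CommRing R] (a b : R)

theorem sw_a1 : (sw a b).a₁ = 0 := rfl
theorem sw_a2 : (sw a b).a₂ = 0 := rfl
theorem sw_a3 : (sw a b).a₃ = 0 := rfl
theorem sw_a4 : (sw a b).a₄ = a := rfl
theorem sw_a6 : (sw a b).a₆ = b := rfl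

end

variable {N : Type*} [Field N] [NumberField N]

private theorem eps (M η : ℤᵐ⁰) (hM : 1 ≤ M) (hη : η ≠ 0) : ∃ e : ℤᵐ⁰, e ≠ 0 ∧ e * M < η := by
  have hM0 : M ≠ 0 := (zero_lt_one.trans_le hM).ne'
  refine ⟨exp (log η - log M - 1), exp_ne_zero, ?_⟩
  calc exp (log η - log M - 1) * M = exp (log η - log M - 1) * exp (log M) := by
        rw [exp_log hM0]
    _ = exp (log η - 1) := by
        rw [← exp_add]
        congr 1
        ring
    _ < exp (log η) := by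
        rw [exp_lt_exp]
        omega
    _ = η := exp_log hη

/-- two points with a large slope -/
private theorem fin_slope {k : Type*} [Field k] (v : Valuation k ℤᵐ⁰) {M : ℤᵐ⁰} {x₁ x₂ a c : k}
    (hx₁ : v x₁ ≤ M) (hx₂ : v x₂ ≤ M) (hc : c ≠ 0) (hm : M * v c ^ 2 < v a ^ 2) :
    M < v ((a / c) ^ 2 - x₁ - x₂) := by
  have hcv : 0 < v c ^ 2 := pow_pos (zero_lt_iff.mpr ((Valuation.ne_zero_iff _).mpr hc)) 2
  have h5 : M < v ((a / c) ^ 2) := by
    rw [map_pow, map_div₀, div_pow, lt_div_iff₀ hcv]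
    exact hm
  have h6 : v (x₁ + x₂) ≤ M := (Valuation.map_add _ _ _).trans (max_le hx₁ hx₂)
  rw [sub_sub, Valuation.map_sub_eq_of_lt_left _ (h6.trans_lt h5)]
  exact h5

theorem close {k : Type*} [Field k] (v : Valuation k ℤᵐ⁰) (h20 : (2 : k) ≠ 0) {a b : k}
    (hd : 4 * a ^ 3 + 27 * b ^ 2 ≠ 0) (M : ℤᵐ⁰) (hM : 1 ≤ M) :
    ∃ ε : ℤᵐ⁰, ε ≠ 0 ∧ ∀ P Q : (sw a b).toAffine.Point, P ≠ 0 → Q ≠ 0 → v (px P) ≤ M →
      v (px Q) ≤ M → v (px P - px Q) ≤ ε → v (py P - py Q) ≤ ε → P ≠ Q → Bg v M (P - Q) := by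
  have hv2 : v (2 : k) ≠ 0 := (Valuation.ne_zero_iff _).mpr h20
  have hvd : v (4 * a ^ 3 + 27 * b ^ 2) ≠ 0 := (Valuation.ne_zero_iff _).mpr hd
  obtain ⟨K, hK⟩ : ∃ K : ℤᵐ⁰, K = max (M ^ 3) (max (v a * M) (v b)) := ⟨_, rfl⟩
  have hK3 : M ^ 3 ≤ K := hK ▸ le_max_left _ _
  have hKa : v a * M ≤ K := by rw [hK]; exact (le_max_left _ _).trans (le_max_right _ _)
  have hKb : v b ≤ K := by rw [hK]; exact (le_max_right _ _).trans (le_max_right _ _)
  have hK1 : 1 ≤ K := (one_le_pow₀ hM).trans hK3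
  have hK2 : M ^ 2 ≤ K := (pow_le_pow_right₀ hM (by norm_num)).trans hK3
  have hKa' : v a ≤ K := (le_mul_of_one_le_right' hM).trans hKa
  have hK0 : 0 < K := zero_lt_one.trans_le hK1
  obtain ⟨δ, hδ0, hδK⟩ := eps K (min (v (2 : k) ^ 2 * v (4 * a ^ 3 + 27 * b ^ 2)) 1) hK1
    (by
      intro h
      rcases min_eq_bot.1 (show min _ _ = (⊥ : ℤᵐ⁰) from h) with h1 | h1
      · exact mul_ne_zero (pow_ne_zero 2 hv2) hvd h1
      · exact one_ne_zero h1)
  have hδd : δ * K < v (2 : k) ^ 2 * v (4 * a ^ 3 + 27 * b ^ 2) := hδK.trans_le (min_le_left _ _)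
  have hδ1 : δ < 1 :=
    (le_mul_of_one_le_right' hK1).trans_lt (hδK.trans_le (min_le_right _ _))
  obtain ⟨η₀, hη00, hη0K⟩ := eps K (min (v (4 * a ^ 3 + 27 * b ^ 2)) 1) hK1
    (by
      intro h
      rcases min_eq_bot.1 (show min _ _ = (⊥ : ℤᵐ⁰) from h) with h1 | h1
      · exact hvd h1
      · exact one_ne_zero h1)
  have hη0d : η₀ * K < v (4 * a ^ 3 + 27 * b ^ 2) := hη0K.trans_le (min_le_left _ _)
  have hη01 : η₀ < 1 :=
    (le_mul_of_one_le_right' hK1).trans_lt (hη0K.trans_le (min_le_right _ _))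
  obtain ⟨η, hη⟩ : ∃ η : ℤᵐ⁰, η = min δ η₀ := ⟨_, rfl⟩
  have hη0 : 0 < η := by
    rw [hη]
    exact lt_min (zero_lt_iff.mpr hδ0) (zero_lt_iff.mpr hη00)
  have hηδ : η ≤ δ := hη ▸ min_le_left _ _
  have hηη : η ≤ η₀ := hη ▸ min_le_right _ _
  obtain ⟨ε, hε0, hεM⟩ := eps M η hM hη0.ne'
  have hεη : ε < η := (le_mul_of_one_le_right' hM).trans_lt hεM
  have hε1 : ε < 1 := (hεη.trans_le hηδ).trans hδ1
  have hv3 : v (3 : k) ≤ 1 := v_three_le
  have hnat : ∀ n : ℕ, v (n : k) ≤ 1 := v_nat_le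
  refine ⟨ε, hε0, fun P Q hP hQ hx₁ hx₂ hx hy hne => ?_⟩
  have e1 := p_eq hP
  have e2 := p_eq hQ
  simp only [sw_a1, sw_a2, sw_a3, sw_a4, sw_a6, zero_mul, add_zero] at e1 e2
  obtain ⟨x₁, hX₁⟩ : ∃ x, x = px P := ⟨_, rfl⟩
  obtain ⟨x₂, hX₂⟩ : ∃ x, x = px Q := ⟨_, rfl⟩
  obtain ⟨y₁, hY₁⟩ : ∃ x, x = py P := ⟨_, rfl⟩
  obtain ⟨y₂, hY₂⟩ : ∃ x, x = py Q := ⟨_, rfl⟩
  rw [← hX₁] at e1 hx₁ hx
  rw [← hX₂] at e2 hx₂ hx
  rw [← hY₁] at e1 hy
  rw [← hY₂] at e2 hy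
  have hxy : ¬(x₁ = x₂ ∧ y₁ = y₂) := by
    rintro ⟨h1, h2⟩
    exact hne (p_ext hP hQ (by rw [← hX₁, ← hX₂, h1]) (by rw [← hY₁, ← hY₂, h2]))
  have hsmall : ∀ s t : k, v t ≤ ε → η ≤ v s → M * v t ^ 2 < v s ^ 2 := by
    intro s t ht hs
    calc M * v t ^ 2 ≤ M * ε ^ 2 := mul_le_mul' le_rfl (pow_le_pow_left' ht 2)
      _ ≤ (ε * M) * (ε * M) := by
        have : M * ε ^ 2 = (ε * M) * ε := by rw [sq, ← mul_assoc, mul_comm M ε]
        rw [this]
        exact mul_le_mul' le_rfl (le_mul_of_one_le_right' hM)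
      _ < η * η := mul_lt_mul'' hεM hεM zero_le zero_le
      _ ≤ v s * v s := mul_le_mul' hs hs
      _ = v s ^ 2 := (sq _).symm
  have hid : (y₁ - y₂) * (y₁ + y₂) = (x₁ - x₂) * (x₁ ^ 2 + x₁ * x₂ + x₂ ^ 2 + a) := by
    linear_combination e1 - e2
  have hnQ : -Q ≠ 0 := fun h => hQ (neg_eq_zero.1 h)
  have hpy : py (-Q) = -y₂ := by
    rw [py_neg hQ, ← hY₂]
    simp only [sw_a1, sw_a2, sw_a3, sw_a4, sw_a6, zero_mul, sub_zero]
  -- the case of different abscissae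
  have hadd : x₁ ≠ x₂ → ∀ s t : k, t ≠ 0 → (y₁ + y₂) / (x₁ - x₂) = s / t → M * v t ^ 2 < v s ^ 2 →
      Bg v M (P - Q) := by
    intro hx12 s t ht hst hm
    have hne' : px P ≠ px (-Q) := by rwa [px_neg, ← hX₁, ← hX₂]
    obtain ⟨-, h1, -⟩ := p_add hP hnQ hne'
    right
    rw [sub_eq_add_neg, h1, px_neg, hpy, ← hX₁, ← hX₂, ← hY₁]
    simp only [sw_a1, sw_a2, sw_a3, sw_a4, sw_a6, zero_mul, add_zero, sub_zero]
    rw [sub_neg_eq_add, hst]
    exact fin_slope v hx₁ hx₂ ht hm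
  rcases lt_or_ge δ (v (2 * y₁)) with hA | hB
  · have hγ : v (y₁ + y₂) = v (2 * y₁) := by
      rw [show y₁ + y₂ = 2 * y₁ - (y₁ - y₂) by ring]
      exact Valuation.map_sub_eq_of_lt_left _
        (((hy.trans_lt hεη).trans_le hηδ).trans hA)
    have hs0 : y₁ + y₂ ≠ 0 := by
      rw [← Valuation.ne_zero_iff v, hγ]
      exact (zero_le.trans_lt hA).ne'
    have hx12 : x₁ ≠ x₂ := by
      intro h0
      rw [h0, sub_self, zero_mul] at hid
      exact hxy ⟨h0, sub_eq_zero.mp ((mul_eq_zero.mp hid).resolve_right hs0)⟩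
    exact hadd hx12 _ _ (sub_ne_zero.mpr hx12) rfl
      (hsmall _ _ hx (by rw [hγ]; exact hηδ.trans hA.le))
  · -- the derivative is large
    have hder : η₀ ≤ v (3 * x₁ ^ 2 + a) := by
      have h3 : v (3 * x₁ ^ 2 + 4 * a) ≤ K := by
        refine v.map_add_le ?_ ?_
        · rw [map_mul, map_pow]
          exact (mul_le_of_le_one_left' hv3).trans ((pow_le_pow_left' hx₁ 2).trans hK2)
        · rw [map_mul]
          exact (mul_le_of_le_one_left' (by exact_mod_cast hnat 4)).trans hKa'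
      have h4 : v (27 * (x₁ ^ 3 + a * x₁ - b)) ≤ K := by
        rw [map_mul]
        refine (mul_le_of_le_one_left' (by exact_mod_cast hnat 27)).trans ?_
        refine v.map_sub_le (v.map_add_le ?_ ?_) hKb
        · rw [map_pow]
          exact (pow_le_pow_left' hx₁ 3).trans hK3
        · rw [map_mul]
          exact (mul_le_mul' le_rfl hx₁).trans hKa
      have hyd : K * v (y₁ ^ 2) < v (4 * a ^ 3 + 27 * b ^ 2) := by
        have h5 : v (2 * y₁) ^ 2 ≤ δ := by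
          refine (pow_le_pow_left' hB 2).trans ?_
          rw [sq]
          exact mul_le_of_le_one_right' hδ1.le
        have h6 : v (2 * y₁) ^ 2 * K < v (2 : k) ^ 2 * v (4 * a ^ 3 + 27 * b ^ 2) :=
          (mul_le_mul' h5 le_rfl).trans_lt hδd
        have e3 : v (2 * y₁) ^ 2 * K = v (2 : k) ^ 2 * (K * v (y₁ ^ 2)) := by
          rw [map_mul, map_pow, mul_pow, mul_assoc, mul_comm (v y₁ ^ 2) K]
        rw [e3] at h6
        exact lt_of_mul_lt_mul_left' h6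
      have e4 : 4 * a ^ 3 + 27 * b ^ 2 = (3 * x₁ ^ 2 + 4 * a) * (3 * x₁ ^ 2 + a) ^ 2 -
          27 * (x₁ ^ 3 + a * x₁ - b) * y₁ ^ 2 := by
        rw [e1]
        ring
      have h7 : v (27 * (x₁ ^ 3 + a * x₁ - b) * y₁ ^ 2) < v (4 * a ^ 3 + 27 * b ^ 2) := by
        rw [map_mul]
        exact (mul_le_mul' h4 le_rfl).trans_lt hyd
      have h8 : v (4 * a ^ 3 + 27 * b ^ 2) ≤ K * v (3 * x₁ ^ 2 + a) ^ 2 := by
        have h9 : v (4 * a ^ 3 + 27 * b ^ 2) =
            v ((3 * x₁ ^ 2 + 4 * a) * (3 * x₁ ^ 2 + a) ^ 2) := by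
          have e5 : (3 * x₁ ^ 2 + 4 * a) * (3 * x₁ ^ 2 + a) ^ 2 = (4 * a ^ 3 + 27 * b ^ 2) +
              27 * (x₁ ^ 3 + a * x₁ - b) * y₁ ^ 2 := by rw [e4]; ring
          rw [e5]
          exact (Valuation.map_add_eq_of_lt_left v h7).symm
        rw [h9, map_mul, map_pow]
        exact mul_le_mul' h3 le_rfl
      by_contra hc
      rw [not_le] at hc
      refine absurd h8 (not_le.2 (lt_of_le_of_lt ?_ hη0d))
      calc K * v (3 * x₁ ^ 2 + a) ^ 2 ≤ K * η₀ ^ 2 :=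
            mul_le_mul' le_rfl (pow_le_pow_left' hc.le 2)
        _ = (η₀ * K) * η₀ := by rw [sq, ← mul_assoc, mul_comm K η₀]
        _ ≤ η₀ * K := mul_le_of_le_one_right' hη01.le
    have hder0 : 3 * x₁ ^ 2 + a ≠ 0 := by
      rw [← Valuation.ne_zero_iff v]
      exact (lt_of_lt_of_le (zero_lt_iff.2 hη00) hder).ne'
    by_cases hx12 : x₁ = x₂
    · -- `Q = - P`
      have hPQ : P = -Q := by
        rcases (px_eq_iff hP hQ).1 (by rw [← hX₁, ← hX₂, hx12]) with h | h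
        · exact absurd h hne
        · exact h
      have hy2 : y₂ = -y₁ := by
        have h1 : y₁ = -y₂ := by rw [hY₁, hPQ, hpy]
        rw [h1, neg_neg]
      have hy12 : y₁ ≠ y₂ := fun h => hxy ⟨hx12, h⟩
      have hy0 : (2 : k) * y₁ ≠ 0 := by
        intro h0
        apply hy12
        rw [hy2]
        linear_combination h0
      have hpe : pe P = 2 * y₁ := by
        unfold pe
        rw [← hY₁]
        simp only [sw_a1, sw_a2, sw_a3, sw_a4, sw_a6, zero_mul, add_zero]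
      obtain ⟨-, h1, -⟩ := p_dbl hP (by rwa [hpe])
      right
      have hsub : P - Q = P + P := by rw [sub_eq_add_neg, ← hPQ]
      rw [hsub, h1, hpe, ← hX₁, ← hY₁]
      simp only [sw_a1, sw_a2, sw_a3, sw_a4, sw_a6, zero_mul, add_zero, sub_zero, mul_zero]
      have hy' : v (2 * y₁) ≤ ε := by
        rw [show (2 : k) * y₁ = y₁ - -y₁ by ring, ← hy2]
        exact hy
      exact fin_slope v hx₁ hx₁ hy0 (hsmall _ _ hy' (hηη.trans hder))
    · have hq : v (x₁ ^ 2 + x₁ * x₂ + x₂ ^ 2 + a) = v (3 * x₁ ^ 2 + a) := by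
        rw [show x₁ ^ 2 + x₁ * x₂ + x₂ ^ 2 + a =
          (3 * x₁ ^ 2 + a) - (3 * x₁ * (x₁ - x₂) - (x₁ - x₂) ^ 2) by ring]
        refine Valuation.map_sub_eq_of_lt_left _ ?_
        have h5 : v (3 * x₁ * (x₁ - x₂)) < η₀ := by
          rw [map_mul, map_mul]
          calc v (3 : k) * v x₁ * v (x₁ - x₂) ≤ M * ε :=
                mul_le_mul' ((mul_le_of_le_one_left' hv3).trans hx₁) hx
            _ = ε * M := mul_comm _ _
            _ < η := hεM
            _ ≤ η₀ := hηη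
        have h6 : v ((x₁ - x₂) ^ 2) < η₀ := by
          rw [map_pow]
          calc v (x₁ - x₂) ^ 2 ≤ ε ^ 2 := pow_le_pow_left' hx 2
            _ ≤ ε := by
              rw [sq]
              exact mul_le_of_le_one_right' hε1.le
            _ < η := hεη
            _ ≤ η₀ := hηη
        exact ((Valuation.map_sub _ _ _).trans_lt (max_lt h5 h6)).trans_le hder
      have hq0 : x₁ ^ 2 + x₁ * x₂ + x₂ ^ 2 + a ≠ 0 := by
        rw [← Valuation.ne_zero_iff v, hq]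
        exact (Valuation.ne_zero_iff v).2 hder0
      have hy12 : y₁ - y₂ ≠ 0 := by
        intro h0
        rw [h0, zero_mul] at hid
        exact mul_ne_zero (sub_ne_zero.mpr hx12) hq0 hid.symm
      refine hadd hx12 (x₁ ^ 2 + x₁ * x₂ + x₂ ^ 2 + a) (y₁ - y₂) hy12 ?_
        (hsmall _ _ hy (by rw [hq]; exact hηη.trans hder))
      rw [div_eq_div_iff (sub_ne_zero.mpr hx12) hy12]
      linear_combination hid

theorem cover (v : HeightOneSpectrum (𝓞 N)) {a b : v.adicCompletion N}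
    (hd : 4 * a ^ 3 + 27 * b ^ 2 ≠ 0) (M : ℤᵐ⁰) :
    ∃ T : Finset (sw a b).toAffine.Point, ∀ P : (sw a b).toAffine.Point, ∃ t ∈ T,
      Bg (Valued.v : Valuation (v.adicCompletion N) ℤᵐ⁰) M (P - t) := by
  obtain ⟨V, hVd⟩ : ∃ V : Valuation (v.adicCompletion N) ℤᵐ⁰, V = Valued.v := ⟨_, rfl⟩
  have h20 : (2 : v.adicCompletion N) ≠ 0 := by
    have h : algebraMap N (v.adicCompletion N) 2 ≠ 0 := (map_ne_zero _).2 two_ne_zero
    rwa [map_ofNat] at h
  obtain ⟨M', hM'⟩ : ∃ M', M' = max 1 M := ⟨_, rfl⟩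
  have hM1 : 1 ≤ M' := hM' ▸ le_max_left 1 M
  have hMM : M ≤ M' := hM' ▸ le_max_right 1 M
  obtain ⟨e, he0, he⟩ := close V h20 hd M' hM1
  obtain ⟨K, hK⟩ : ∃ K : ℤᵐ⁰, K = max (M' ^ 3) (max (V a * M') (V b)) := ⟨_, rfl⟩
  have hK3 : M' ^ 3 ≤ K := hK ▸ le_max_left _ _
  have hKa : V a * M' ≤ K := by rw [hK]; exact (le_max_left _ _).trans (le_max_right _ _)
  have hKb : V b ≤ K := by rw [hK]; exact (le_max_right _ _).trans (le_max_right _ _)
  have hK1 : 1 ≤ K := (one_le_pow₀ hM1).trans hK3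
  have hybound : ∀ P : (sw a b).toAffine.Point, P ≠ 0 → V (px P) ≤ M' → V (py P) ≤ K := by
    intro P hP hx
    rcases le_or_gt (V (py P)) 1 with hy | hy
    · exact hy.trans hK1
    · have h1 : V (py P) ≤ V (py P) ^ 2 := by
        rw [pow_two]
        exact le_mul_of_one_le_right' hy.le
      refine h1.trans ?_
      have e1 := p_eq hP
      simp only [sw_a1, sw_a2, sw_a3, sw_a4, sw_a6, zero_mul, add_zero] at e1
      rw [← map_pow, e1]
      refine V.map_add_le (V.map_add_le ?_ ?_) hKb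
      · rw [map_pow]
        exact (pow_le_pow_left' hx 3).trans hK3
      · rw [map_mul]
        exact (mul_le_mul' le_rfl hx).trans hKa
  obtain ⟨S, hS⟩ := Pool.Agent.Lib.MP_1a91b9_nuT.S9.finite_ball v M' e he0
  obtain ⟨S', hS'⟩ := Pool.Agent.Lib.MP_1a91b9_nuT.S9.finite_ball v K e he0
  rw [← hVd] at hS hS' ⊢
  obtain ⟨t, ht'⟩ : ∃ t : (v.adicCompletion N) × (v.adicCompletion N) → (sw a b).toAffine.Point,
      ∀ q, (∃ Q : (sw a b).toAffine.Point, Q ≠ 0 ∧ V (px Q) ≤ M' ∧ V (px Q - q.1) ≤ e ∧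
          V (py Q - q.2) ≤ e) →
        t q ≠ 0 ∧ V (px (t q)) ≤ M' ∧ V (px (t q) - q.1) ≤ e ∧ V (py (t q) - q.2) ≤ e := by
    refine ⟨fun q => if H : (∃ Q : (sw a b).toAffine.Point, Q ≠ 0 ∧ V (px Q) ≤ M' ∧
      V (px Q - q.1) ≤ e ∧ V (py Q - q.2) ≤ e) then H.choose else 0, fun q H => ?_⟩
    beta_reduce
    rw [dif_pos H]
    exact H.choose_spec
  refine ⟨insert 0 ((S ×ˢ S').image t), fun P => ?_⟩
  by_cases hP : P = 0
  · exact ⟨0, Finset.mem_insert_self _ _, Or.inl (by rw [hP, sub_zero])⟩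
  rcases lt_or_ge M' (V (px P)) with hx₁ | hx₁
  · refine ⟨0, Finset.mem_insert_self _ _, Or.inr ?_⟩
    rw [sub_zero]
    exact hMM.trans_lt hx₁
  · have hy₁ := hybound P hP hx₁
    obtain ⟨s, hs, hs1⟩ := hS _ hx₁
    obtain ⟨s', hs', hs1'⟩ := hS' _ hy₁
    obtain ⟨hQ, hx₂, hxs, hys⟩ := ht' (s, s') ⟨P, hP, hx₁, hs1, hs1'⟩
    refine ⟨t (s, s'), Finset.mem_insert_of_mem (Finset.mem_image_of_mem _
      (Finset.mem_product.mpr ⟨hs, hs'⟩)), ?_⟩
    obtain ⟨Q, hQd⟩ : ∃ Q, Q = t (s, s') := ⟨_, rfl⟩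
    rw [← hQd] at hQ hx₂ hxs hys ⊢
    have hdx : V (px P - px Q) ≤ e := by
      rw [show px P - px Q = (px P - s) - (px Q - s) by ring]
      exact (Valuation.map_sub _ _ _).trans (max_le hs1 hxs)
    have hdy : V (py P - py Q) ≤ e := by
      rw [show py P - py Q = (py P - s') - (py Q - s') by ring]
      exact (Valuation.map_sub _ _ _).trans (max_le hs1' hys)
    by_cases hPQ : P = Q
    · left
      rw [hPQ, sub_self]
    · exact Bg.mono hMM (he P Q hP hQ hx₁ hx₂ hdx hdy hPQ)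

end Pool.Agent.Lib.MP_1a91b9_nuX.TM
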