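import Pool.Agent.Lib.MP_1a91b9_nuX.TM.Rat

/-!
# The kernel of reduction: multiples prime to the residue characteristic
-/

set_option autoImplicit false

namespace Pool.Agent.Lib.MP_1a91b9_nuX.TM

open WeierstrassCurve Pool.Agent.Lib.MP_1a91b9_nuX.GM

noncomputable section

section
variable {F : Type*} [Field F] [DecidableEq F] {Γ : Type*} [LinearOrderedCommGroupWithZero Γ]
  {v : Valuation F Γ} {W : WeierstrassCurve F}

omit [DecidableEq F] in
theorem v_nat_le (n : ℕ) : v (n : F) ≤ 1 := by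
  induction n with
  | zero => simp
  | succ k ih => rw [Nat.cast_succ]; exact v.map_add_le ih (by rw [map_one])

/-- the abscissae of the points `S + n B` -/
theorem kr_key (hW : IntW v W) {S : W.toAffine.Point} (hS : ¬ Kr v S) (hSe : v (pe S) = 1)
    {B : W.toAffine.Point} (hB : Kr v B) (hB0 : B ≠ 0) (n : ℕ) : ¬ Kr v (S + n • B) ∧
      v (px (S + n • B) - px S + n * (pe S * pt B)) ≤ v (pt B) ^ 2 ∧
      v (py (S + n • B) - py S) ≤ v (pt B) := by
  obtain ⟨-, ht0, ht1, -, -⟩ := kr_val hW hB hB0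
  obtain ⟨τ, hτ⟩ : ∃ τ, τ = v (pt B) := ⟨_, rfl⟩
  rw [← hτ] at ht0 ht1
  have hτ1 : τ ≤ 1 := ht1.le
  have hτ2 : τ ^ 2 ≤ τ := by
    rw [sq]
    exact mul_le_of_le_one_left' hτ1
  rw [← hτ]
  induction n with
  | zero =>
    rw [zero_nsmul, add_zero, Nat.cast_zero, zero_mul, add_zero, sub_self, sub_self, map_zero]
    exact ⟨hS, zero_le', zero_le'⟩
  | succ n ih =>
    obtain ⟨i1, i2, i3⟩ := ih
    have e1 : S + (n + 1) • B = (S + n • B) + B := by rw [succ_nsmul, add_assoc]
    obtain ⟨j0, j1, j2⟩ := kr_add hW i1 hB hB0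
    rw [← hτ] at j1 j2
    rw [e1]
    have hdx : v (px (S + n • B) - px S) ≤ τ := by
      have e2 : px (S + n • B) - px S =
          (px (S + n • B) - px S + n * (pe S * pt B)) - n * (pe S * pt B) := by ring
      rw [e2]
      refine v.map_sub_le (i2.trans hτ2) ?_
      rw [map_mul, map_mul, hSe, one_mul, ← hτ]
      exact mul_le_of_le_one_left' (v_nat_le n)
    refine ⟨not_kr_add hW i1 hB, ?_, ?_⟩
    · have e2 : px (S + n • B + B) - px S + ((n + 1 : ℕ) : F) * (pe S * pt B) =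
          (px (S + n • B + B) - px (S + n • B) + pe (S + n • B) * pt B) +
          (px (S + n • B) - px S + n * (pe S * pt B)) -
          (2 * (py (S + n • B) - py S) + W.a₁ * (px (S + n • B) - px S)) * pt B := by
        unfold pe
        push_cast
        ring
      rw [e2]
      refine v.map_sub_le (v.map_add_le j1 i2) ?_
      rw [map_mul, ← hτ, sq]
      refine mul_le_mul' (v.map_add_le ?_ ?_) le_rfl
      · rw [map_mul]
        exact (mul_le_of_le_one_left' v_two_le).trans i3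
      · rw [map_mul]
        exact (mul_le_of_le_one_left' hW.a1).trans hdx
    · have e2 : py (S + n • B + B) - py S = (py (S + n • B + B) - py (S + n • B)) +
          (py (S + n • B) - py S) := by ring
      rw [e2]
      exact v.map_add_le j2 i3

/-- the parameter of a multiple prime to the residue characteristic -/
theorem pt_nsmul (hW : IntW v W) {S : W.toAffine.Point} (hS : ¬ Kr v S) (hSe : v (pe S) = 1)
    {B : W.toAffine.Point} (hB : Kr v B) (hB0 : B ≠ 0) {m : ℕ} (hm : v (m : F) = 1) :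
    m • B ≠ 0 ∧ v (pt (m • B)) = v (pt B) := by
  have h0 : m • B ≠ 0 := fun h => hB0 (kr_tors hW hS hSe hB hm h)
  refine ⟨h0, ?_⟩
  have hK := kr_nsmul hW hB m
  obtain ⟨-, h2, -⟩ := kr_key hW hS hSe hB hB0 m
  obtain ⟨-, h3, -⟩ := kr_add hW hS hK h0
  obtain ⟨-, ht0, ht1, -, -⟩ := kr_val hW hB hB0
  obtain ⟨-, ht0', ht1', -, -⟩ := kr_val hW hK h0
  obtain ⟨τ, hτ⟩ : ∃ τ, τ = v (pt B) := ⟨_, rfl⟩
  obtain ⟨τ', hτ'⟩ : ∃ τ', τ' = v (pt (m • B)) := ⟨_, rfl⟩
  rw [← hτ] at ht0 ht1 h2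
  rw [← hτ'] at ht0' ht1' h3
  rw [← hτ, ← hτ']
  have hA : v (pe S * pt (m • B)) = τ' := by rw [map_mul, hSe, one_mul, hτ']
  have hA' : v (m * (pe S * pt B)) = τ := by rw [map_mul, map_mul, hm, hSe, one_mul, one_mul, hτ]
  have hd : v (pe S * pt (m • B) - m * (pe S * pt B)) ≤ max (τ' ^ 2) (τ ^ 2) := by
    have e : pe S * pt (m • B) - m * (pe S * pt B) =
        (px (S + m • B) - px S + pe S * pt (m • B)) -
          (px (S + m • B) - px S + m * (pe S * pt B)) := by ring
    rw [e]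
    exact (v.map_sub _ _).trans (max_le_max h3 h2)
  have sq_lt : ∀ a : Γ, a ≠ 0 → a < 1 → a ^ 2 < a := by
    intro a ha0 ha1
    rw [sq]
    exact mul_lt_of_lt_one_left (zero_lt_iff.2 ha0) ha1
  rcases lt_trichotomy τ τ' with h | h | h
  · exfalso
    rw [Valuation.map_sub_eq_of_lt_left v (by rw [hA, hA']; exact h), hA] at hd
    refine absurd hd (not_le.2 (max_lt (sq_lt _ ht0' ht1') ?_))
    exact (sq_lt _ ht0 ht1).trans h
  · exact h.symm
  · exfalso
    rw [Valuation.map_sub_eq_of_lt_right v (by rw [hA, hA']; exact h), hA'] at hd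
    refine absurd hd (not_le.2 (max_lt ?_ (sq_lt _ ht0 ht1)))
    exact (sq_lt _ ht0' ht1').trans h

end

end

end Pool.Agent.Lib.MP_1a91b9_nuX.TM
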