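import Pool.Agent.Lib.MP_1a91b9_nuX.GM.Desc
import Pool.Agent.Lib.MP_1a91b9_nuX.GM.Chg

/-!
# Descent of a good model by a rational point

If a curve `W` over `k` has a good model over an extension `F`, and `P` is a point of `W` over `k`
such that neither `P` nor `2 P` nor `3 P` lies in the kernel of the reduction of the good model, then
`W` has a good model over `k`: the point `P` is moved to the origin, its tangent becomes horizontal
and the scaling is `(2 y + a₁ x + a₃)(P) / (x(2 P) - x(P))`.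
-/

set_option autoImplicit false

namespace Pool.Agent.Lib.MP_1a91b9_nuX.TM

open WeierstrassCurve Pool.Agent.Lib.MP_1a91b9_nuX.GM

noncomputable section

section
variable {F : Type*} [Field F] [DecidableEq F] {Γ : Type*} [LinearOrderedCommGroupWithZero Γ]
  {v : Valuation F Γ} {W : WeierstrassCurve F}

/-- a point which is not of order two modulo `v` -/
theorem pe_unit (hW : GoodW v W) {P : W.toAffine.Point} (h1 : ¬ Kr v P) (h2 : ¬ Kr v (P + P)) :
    v (pe P) = 1 := by
  refine le_antisymm (pe_le hW.toIntW h1) (not_lt.1 fun h => h2 ?_)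
  refine kr_add_of hW h1 h1 (by rw [sub_self, map_zero]; exact zero_lt_one) ?_
  have e : py P + py P + W.a₁ * px P + W.a₃ = pe P := by
    unfold pe
    ring
  rwa [e]

/-- a point which is not of order one, two, three modulo `v` -/
theorem dpx_unit (hW : GoodW v W) {P : W.toAffine.Point} (h1 : ¬ Kr v P) (h2 : ¬ Kr v (P + P))
    (h3 : ¬ Kr v (P + P + P)) : v (px (P + P) - px P) = 1 := by
  rw [v_px_sub hW h2 (not_kr h1).1 (by rwa [add_sub_cancel_right]) h3]
  exact max_eq_left (not_kr h1).2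

end

section
variable {k F : Type*} [Field k] [Field F] [DecidableEq k] [DecidableEq F] [Algebra k F]
  {Γ Γ' : Type*} [LinearOrderedCommGroupWithZero Γ] [LinearOrderedCommGroupWithZero Γ']
  {v : Valuation k Γ} {V : Valuation F Γ'}

/-- **Descent of a good model by a rational point.** -/
theorem desc_pt (hV : ∀ x : k, V (algebraMap k F x) ≤ 1 ↔ v x ≤ 1) {W : WeierstrassCurve k}
    {C : VariableChange F} (hC : GoodW V (C • W.map (algebraMap k F)))
    {P : W.toAffine.Point}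
    {φ : W.toAffine.Point →+ (W.map (algebraMap k F)).toAffine.Point}
    (hφi : Function.Injective φ) (hφx : ∀ P, px (φ P) = algebraMap k F (px P))
    (hφy : ∀ P, py (φ P) = algebraMap k F (py P))
    {e : (W.map (algebraMap k F)).toAffine.Point ≃+
      (C • W.map (algebraMap k F)).toAffine.Point}
    (he : ∀ P : (W.map (algebraMap k F)).toAffine.Point, P ≠ 0 →
      px P = (C.u : F) ^ 2 * px (e P) + C.r ∧
      py P = (C.u : F) ^ 3 * py (e P) + (C.u : F) ^ 2 * C.s * px (e P) + C.t)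
    (h1 : ¬ Kr V (e (φ P))) (h2 : ¬ Kr V (e (φ (P + P)))) (h3 : ¬ Kr V (e (φ (P + P + P)))) :
    ∃ C' : VariableChange k, GoodW v (C' • W) := by
  obtain ⟨Q, hQ⟩ : ∃ Q, Q = e (φ P) := ⟨_, rfl⟩
  have h2' : ¬ Kr V (Q + Q) := by rwa [hQ, ← map_add, ← map_add]
  have h3' : ¬ Kr V (Q + Q + Q) := by rwa [hQ, ← map_add, ← map_add, ← map_add, ← map_add]
  rw [← hQ] at h1
  have hP0 : P ≠ 0 := by
    rintro rfl
    exact (not_kr h1).1 (by rw [hQ, map_zero, map_zero])
  have hPP0 : P + P ≠ 0 := by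
    intro h
    exact (not_kr h2).1 (by rw [h, map_zero, map_zero])
  have n0 : ∀ R : W.toAffine.Point, R ≠ 0 → φ R ≠ 0 := fun R hR h =>
    hR (hφi (by rw [h, map_zero]))
  have hpe := pe_unit hC h1 h2'
  have hdp := dpx_unit hC h1 h2' h3'
  obtain ⟨u, hu⟩ : ∃ u : F, u = (C.u : F) := ⟨_, rfl⟩
  have hu0 : u ≠ 0 := by
    rw [hu]
    exact C.u.ne_zero
  obtain ⟨x1, y1⟩ := he _ (n0 _ hP0)
  obtain ⟨x2, y2⟩ := he _ (n0 _ hPP0)
  rw [hφx, ← hQ, ← hu] at x1
  rw [hφy, ← hQ, ← hu] at y1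
  have e2 : e (φ (P + P)) = Q + Q := by rw [hQ, map_add, map_add]
  rw [hφx, e2, ← hu] at x2
  -- the coefficients
  have ha1 : (C • W.map (algebraMap k F)).a₁ = u⁻¹ * (algebraMap k F W.a₁ + 2 * C.s) := by
    rw [WeierstrassCurve.variableChange_a₁, hu, WeierstrassCurve.map_a₁]
    simp
  have ha3 : (C • W.map (algebraMap k F)).a₃ =
      u⁻¹ ^ 3 * (algebraMap k F W.a₃ + C.r * algebraMap k F W.a₁ + 2 * C.t) := by
    rw [WeierstrassCurve.variableChange_a₃, hu, WeierstrassCurve.map_a₁, WeierstrassCurve.map_a₃]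
    simp
  have ha2 : (C • W.map (algebraMap k F)).a₂ = u⁻¹ ^ 2 * (algebraMap k F W.a₂ -
      C.s * algebraMap k F W.a₁ + 3 * C.r - C.s ^ 2) := by
    rw [WeierstrassCurve.variableChange_a₂, hu, WeierstrassCurve.map_a₁, WeierstrassCurve.map_a₂]
    simp
  have ha4 : (C • W.map (algebraMap k F)).a₄ = u⁻¹ ^ 4 * (algebraMap k F W.a₄ -
      C.s * algebraMap k F W.a₃ + 2 * C.r * algebraMap k F W.a₂ -
      (C.t + C.r * C.s) * algebraMap k F W.a₁ + 3 * C.r ^ 2 - 2 * C.s * C.t) := by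
    rw [WeierstrassCurve.variableChange_a₄, hu, WeierstrassCurve.map_a₁, WeierstrassCurve.map_a₂,
      WeierstrassCurve.map_a₃, WeierstrassCurve.map_a₄]
    simp
  -- the quantities over `k`
  obtain ⟨G, hG⟩ : ∃ G : k, G = 3 * px P ^ 2 + 2 * W.a₂ * px P + W.a₄ - W.a₁ * py P := ⟨_, rfl⟩
  obtain ⟨G', hG'⟩ : ∃ G' : F, G' = 3 * px Q ^ 2 + 2 * (C • W.map (algebraMap k F)).a₂ * px Q +
    (C • W.map (algebraMap k F)).a₄ - (C • W.map (algebraMap k F)).a₁ * py Q := ⟨_, rfl⟩
  have epe : algebraMap k F (pe P) = u ^ 3 * pe Q := by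
    unfold pe
    rw [map_add, map_add, map_mul, map_mul, map_ofNat, x1, y1, ha1, ha3]
    field_simp
    ring
  have edp : algebraMap k F (px (P + P) - px P) = u ^ 2 * (px (Q + Q) - px Q) := by
    rw [map_sub, x1, x2]
    ring
  have eG : algebraMap k F G = u ^ 4 * G' + C.s * (u ^ 3 * pe Q) := by
    rw [hG, hG']
    unfold pe
    simp only [map_add, map_sub, map_mul, map_pow, map_ofNat]
    rw [x1, y1, ha1, ha2, ha3, ha4]
    field_simp
    ring
  have hpe0 : pe Q ≠ 0 := by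
    intro h
    rw [h, map_zero] at hpe
    exact zero_ne_one hpe
  have hdp0 : px (Q + Q) - px Q ≠ 0 := by
    intro h
    rw [h, map_zero] at hdp
    exact zero_ne_one hdp
  have hPe0 : pe P ≠ 0 := by
    intro h
    rw [h, map_zero] at epe
    exact mul_ne_zero (pow_ne_zero 3 hu0) hpe0 epe.symm
  have hPd0 : px (P + P) - px P ≠ 0 := by
    intro h
    rw [h, map_zero] at edp
    exact mul_ne_zero (pow_ne_zero 2 hu0) hdp0 edp.symm
  obtain ⟨α, hα⟩ : ∃ α : k, α = pe P / (px (P + P) - px P) := ⟨_, rfl⟩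
  have hα0 : α ≠ 0 := by
    rw [hα]
    exact div_ne_zero hPe0 hPd0
  obtain ⟨lam, hlam⟩ : ∃ lam : k, lam = G / pe P := ⟨_, rfl⟩
  obtain ⟨ε, hε⟩ : ∃ ε : F, ε = pe Q / (px (Q + Q) - px Q) := ⟨_, rfl⟩
  have hε0 : ε ≠ 0 := by
    rw [hε]
    exact div_ne_zero hpe0 hdp0
  have hεv : V ε = 1 := by rw [hε, map_div₀, hpe, hdp, div_one]
  have eα : algebraMap k F α = u * ε := by
    rw [hα, map_div₀, epe, edp, hε]
    field_simp
  have elam : algebraMap k F lam = u * (G' / pe Q) + C.s := by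
    rw [hlam, map_div₀, epe, eG]
    field_simp
  have hG'v : V (G' / pe Q) ≤ 1 := by
    rw [map_div₀, hpe, div_one, hG']
    have hx := (not_kr h1).2
    have hy := py_le hC.toIntW h1
    exact V.map_sub_le (V.map_add_le (V.map_add_le (mul_le v_three_le (pow_le hx 2))
      (mul_le (mul_le v_two_le hC.a2) hx)) hC.a4) (mul_le hC.a1 hy)
  obtain ⟨C', hC'⟩ : ∃ C' : VariableChange k, C' = ⟨Units.mk0 α hα0, px P, lam, py P⟩ := ⟨_, rfl⟩
  obtain ⟨D, hD⟩ : ∃ D : VariableChange F, D = ⟨Units.mk0 ε hε0, px Q, G' / pe Q, py Q⟩ := ⟨_, rfl⟩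
  have eD : D * C = C'.map (algebraMap k F) := by
    rw [hC', hD, WeierstrassCurve.VariableChange.mul_def, WeierstrassCurve.VariableChange.map]
    ext
    · simp only [Units.val_mul, Units.val_mk0, Units.coe_map, MonoidHom.coe_coe]
      rw [eα, ← hu, mul_comm]
    · change px Q * (C.u : F) ^ 2 + C.r = algebraMap k F (px P)
      rw [x1, ← hu]
      ring
    · change (C.u : F) * (G' / pe Q) + C.s = algebraMap k F lam
      rw [elam, ← hu]
    · change py Q * (C.u : F) ^ 3 + px Q * C.s * (C.u : F) ^ 2 + C.t = algebraMap k F (py P)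
      rw [y1, ← hu]
      ring
  have hGood : GoodW V ((C' • W).map (algebraMap k F)) := by
    rw [← WeierstrassCurve.map_variableChange, ← eD, mul_smul]
    refine good_change hC ?_ ?_ ?_ ?_
    · rw [hD]
      exact hεv
    · rw [hD]
      exact (not_kr h1).2
    · rw [hD]
      exact hG'v
    · rw [hD]
      exact py_le hC.toIntW h1
  refine ⟨C', ⟨⟨(hV _).1 hGood.a1, (hV _).1 hGood.a2, (hV _).1 hGood.a3, (hV _).1 hGood.a4,
    (hV _).1 hGood.a6⟩, ?_⟩⟩
  have h5 := hGood.disc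
  rw [WeierstrassCurve.map_Δ] at h5
  exact (val_ext_eq v V hV _).1 h5

end

end

end Pool.Agent.Lib.MP_1a91b9_nuX.TM
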